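import Mathlib

/-!
# Fat objects in three dimensions: `n^{3/2}` is the right order for 2-spanners

Unit balls touching the plane `z = 0` from below in points `x_u` of a parabola, and convex hulls of
a fixed unit ball above that plane and of polygons `conv {x_u : R u v}`: the intersection graph is
the union of two cliques and of the bipartite graph of `R`.  With `R` the incidences of points and
lines over `F_p` every 2-spanner has at least `p³ / 2` edges.
-/

set_option autoImplicit false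

namespace Pool.Agent.Results.MP_47a88a_co.FatNoSaving

open Metric

/-- Euclidean 3-space -/
abbrev E3 : Type := EuclideanSpace ℝ (Fin 3)

/-- the axis-aligned cube with lowest corner `a` and side `ℓ` -/
def cube (a : E3) (ℓ : ℝ) : Set E3 := {x | ∀ j, a j ≤ x j ∧ x j ≤ a j + ℓ}

/-- `c`-fat families: for every axis-aligned cube of side `ℓ > 0`, some set of at most `c` points
meets every member that intersects the cube and has diameter at least `ℓ` -/
def IsFat {ι : Type} (c : ℕ) (A : ι → Set E3) : Prop :=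
  ∀ (a : E3) (ℓ : ℝ), 0 < ℓ → ∃ S : Finset E3, S.card ≤ c ∧
    ∀ i, (A i ∩ cube a ℓ).Nonempty → ℓ ≤ diam (A i) → ∃ p ∈ S, p ∈ A i

/-- the intersection graph -/
def interGraph {ι : Type} (A : ι → Set E3) : SimpleGraph ι where
  Adj i j := i ≠ j ∧ (A i ∩ A j).Nonempty
  symm := ⟨fun i j h => ⟨h.1.symm, by rw [Set.inter_comm]; exact h.2⟩⟩
  loopless := ⟨fun _ h => h.1 rfl⟩

/-- `G'` is a `t`-spanner of `G` -/
def IsSpanner {V : Type} (t : ℕ) (G G' : SimpleGraph V) : Prop :=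
  G' ≤ G ∧ ∀ x y, G'.edist x y ≤ t * G.edist x y

lemma spanner_two {V : Type} {G G' : SimpleGraph V} (h : IsSpanner 2 G G') {x y : V}
    (hxy : G.Adj x y) : G'.Adj x y ∨ ∃ w, G'.Adj x w ∧ G'.Adj w y := by
  have h1 := h.2 x y
  rw [SimpleGraph.edist_eq_one_iff_adj.mpr hxy, mul_one] at h1
  have hne : G'.edist x y ≠ ⊤ := by
    intro hc; rw [hc] at h1; simp at h1
  obtain ⟨p, hp⟩ := SimpleGraph.exists_walk_of_edist_ne_top hne
  rw [← hp] at h1
  have h2 : p.length ≤ 2 := by exact_mod_cast h1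
  cases p with
  | nil => exact absurd hxy G.irrefl
  | cons hadj q =>
    cases q with
    | nil => exact Or.inl hadj
    | cons hadj2 q2 =>
      cases q2 with
      | nil => exact Or.inr ⟨_, hadj, hadj2⟩
      | cons _ _ => simp at h2

/-- the counting lemma -/
lemma count {α U V : Type} [Fintype α] [Fintype U] [Fintype V] (e : α ≃ U ⊕ V)
    (R : U → V → Prop)
    (hR : ∀ u u' v v', u ≠ u' → R u v → R u' v → R u v' → R u' v' → v = v')
    (G G' : SimpleGraph α) (hG : ∀ u v, G.Adj (e.symm (Sum.inl u)) (e.symm (Sum.inr v)) ↔ R u v)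
    (h : IsSpanner 2 G G') : Nat.card {x : U × V // R x.1 x.2} ≤ 2 * G'.edgeSet.ncard := by
  classical
  let P : {x : U × V // R x.1 x.2} → G'.Dart → Prop := fun x d =>
    (e d.fst = Sum.inl x.1.1 ∧ e d.snd = Sum.inr x.1.2) ∨
    (e d.fst = Sum.inl x.1.1 ∧ ∃ u', e d.snd = Sum.inl u' ∧ R u' x.1.2) ∨
    (e d.fst = Sum.inr x.1.2 ∧ ∃ v', e d.snd = Sum.inr v' ∧ R x.1.1 v')
  have hex : ∀ x, ∃ d, P x d := by
    intro x
    obtain ⟨⟨u, v⟩, hx⟩ := x
    have hadj := (hG u v).mpr hx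
    rcases spanner_two h hadj with h1 | ⟨w, h1, h2⟩
    · exact ⟨⟨(_, _), h1⟩, Or.inl ⟨by simp, by simp⟩⟩
    · rcases hw : e w with u' | v'
      · have hw' : w = e.symm (Sum.inl u') := by rw [← hw]; simp
        refine ⟨⟨(_, _), h1⟩, Or.inr (Or.inl ⟨by simp, u', by simpa using hw, ?_⟩)⟩
        have := h.1 h2
        rw [hw'] at this
        exact (hG u' v).mp this
      · have hw' : w = e.symm (Sum.inr v') := by rw [← hw]; simp
        refine ⟨⟨(_, _), h2.symm⟩, Or.inr (Or.inr ⟨by simp, v', by simpa using hw, ?_⟩)⟩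
        have := h.1 h1
        rw [hw'] at this
        exact (hG u v').mp this
  choose f hf using hex
  have hinj : Function.Injective f := by
    intro x y hxy
    obtain ⟨⟨u, v⟩, hx⟩ := x
    obtain ⟨⟨u₁, v₁⟩, hy⟩ := y
    have p1 := hf ⟨(u, v), hx⟩
    have p2 := hf ⟨(u₁, v₁), hy⟩
    rw [hxy] at p1
    set d := f ⟨(u₁, v₁), hy⟩ with hd
    have hne : e d.fst ≠ e d.snd := fun hc => d.adj.ne (e.injective hc)
    simp only [P] at p1 p2
    simp only at hx hy
    rcases p1 with ⟨a1, a2⟩ | ⟨a1, w, a2, a3⟩ | ⟨a1, w, a2, a3⟩ <;>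
      rcases p2 with ⟨b1, b2⟩ | ⟨b1, w', b2, b3⟩ | ⟨b1, w', b2, b3⟩ <;>
      rw [a1] at b1 hne <;> rw [a2] at b2 hne <;>
      simp only [Sum.inl.injEq, Sum.inr.injEq, reduceCtorEq] at b1 b2
    · subst b1; subst b2; rfl
    · subst b1; subst b2
      have hww : u ≠ w := fun hc => hne (by rw [hc])
      have := hR u w v v₁ hww hx a3 hy b3
      subst this; rfl
    · subst b1; subst b2
      have hww : v ≠ w := fun hc => hne (by rw [hc])
      by_contra hcon
      have hu : u ≠ u₁ := fun hc => hcon (by subst hc; rfl)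
      exact hww (hR u u₁ v w hu hx hy a3 b3)
  have h1 := Nat.card_le_card_of_injective f hinj
  rw [Nat.card_eq_fintype_card (α := G'.Dart), SimpleGraph.dart_card_eq_twice_card_edges] at h1
  have h2 : G'.edgeSet.ncard = G'.edgeFinset.card := by
    rw [Set.ncard_eq_toFinset_card']
    rfl
  rw [h2]
  exact h1

/-! ### The objects -/

/-- the touching points -/
noncomputable def X (t : ℝ) : E3 := !₂[t, t ^ 2, 0]

/-- the centres of the lower balls -/
noncomputable def cen (t : ℝ) : E3 := !₂[t, t ^ 2, -1]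

/-- the point common to all lower balls -/
noncomputable def lo : E3 := !₂[1 / 2, 1 / 2, -1]

/-- the centre of the upper ball -/
noncomputable def hi : E3 := !₂[1 / 2, 1 / 2, 2]

lemma mem_ball_iff (c p : E3) (r : ℝ) (hr : 0 ≤ r) :
    p ∈ closedBall c r ↔ (p 0 - c 0) ^ 2 + (p 1 - c 1) ^ 2 + (p 2 - c 2) ^ 2 ≤ r ^ 2 := by
  rw [mem_closedBall, EuclideanSpace.dist_eq, Real.sqrt_le_left hr, Fin.sum_univ_three]
  simp only [Real.dist_eq, sq_abs]

/-- the family -/
noncomputable def obj {U V : Type} (τ : U → ℝ) (R : U → V → Prop) : U ⊕ V → Set E3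
  | Sum.inl u => closedBall (cen (τ u)) 1
  | Sum.inr v => convexHull ℝ (closedBall hi 1 ∪ {x | ∃ u, R u v ∧ x = X (τ u)})

lemma halfspace (a b c d : ℝ) (S : Set E3) (h : ∀ p ∈ S, d < a * p 0 + b * p 1 + c * p 2) :
    ∀ p ∈ convexHull ℝ S, d < a * p 0 + b * p 1 + c * p 2 := by
  have hconv : Convex ℝ {p : E3 | d < a * p 0 + b * p 1 + c * p 2} := by
    intro p hp q hq x y hx hy hxy
    simp only [Set.mem_ofPred_eq, PiLp.add_apply, PiLp.smul_apply, smul_eq_mul] at *
    have e : a * (x * p 0 + y * q 0) + b * (x * p 1 + y * q 1) + c * (x * p 2 + y * q 2)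
      = x * (a * p 0 + b * p 1 + c * p 2) + y * (a * q 0 + b * q 1 + c * q 2) := by ring
    rw [e]
    rcases eq_or_lt_of_le hx with h0 | h0
    · rw [← h0] at hxy ⊢
      have : y = 1 := by linarith
      rw [this]; linarith
    · have h1 := mul_lt_mul_of_pos_left hp h0
      have h2 := mul_le_mul_of_nonneg_left hq.le hy
      have h3 : x * d + y * d = d := by rw [← add_mul, hxy, one_mul]
      linarith
  exact convexHull_min h hconv

lemma halfspace' (a b c d : ℝ) (S : Set E3) (h : ∀ p ∈ S, d ≤ a * p 0 + b * p 1 + c * p 2) :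
    ∀ p ∈ convexHull ℝ S, d ≤ a * p 0 + b * p 1 + c * p 2 := by
  intro p hp
  apply le_of_forall_pos_lt_add
  intro ε hε
  have := halfspace a b c (d - ε) S (fun q hq => by have := h q hq; linarith) p hp
  linarith

section

variable {U V : Type} (τ : U → ℝ) (R : U → V → Prop)

lemma lo_mem (hτ : ∀ u, τ u ∈ Set.Icc (0 : ℝ) 1) (u : U) : lo ∈ obj τ R (Sum.inl u) := by
  obtain ⟨h0, h1⟩ := hτ u
  change lo ∈ closedBall (cen (τ u)) 1
  rw [mem_ball_iff _ _ _ zero_le_one]
  simp [lo, cen]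
  nlinarith [mul_nonneg h0 (sub_nonneg.mpr h1), sq_nonneg (τ u),
    mul_nonneg (mul_nonneg h0 h0) (sub_nonneg.mpr h1), mul_nonneg (mul_nonneg h0 (sub_nonneg.mpr h1)) (mul_nonneg h0 (sub_nonneg.mpr h1))]

lemma hi_mem (v : V) : hi ∈ obj τ R (Sum.inr v) :=
  subset_convexHull ℝ _ (Or.inl (mem_closedBall_self zero_le_one))

lemma inter_iff (hτ : ∀ u, τ u ∈ Set.Icc (0 : ℝ) 1) (hinj : Function.Injective τ) (u : U) (v : V) :
    (obj τ R (Sum.inl u) ∩ obj τ R (Sum.inr v)).Nonempty ↔ R u v := by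
  constructor
  · rintro ⟨p, hp, hp'⟩
    change p ∈ closedBall (cen (τ u)) 1 at hp
    rw [mem_ball_iff _ _ _ zero_le_one] at hp
    simp [cen] at hp
    have hz0 : 0 ≤ p 2 := by
      have := halfspace' 0 0 1 0 (closedBall hi 1 ∪ {x | ∃ u, R u v ∧ x = X (τ u)}) (by
        rintro q (hq | ⟨w, hw, rfl⟩)
        · rw [mem_ball_iff _ _ _ zero_le_one] at hq
          simp [hi] at hq
          nlinarith [sq_nonneg (q 0 - 2⁻¹), sq_nonneg (q 1 - 2⁻¹)]
        · simp [X]) p hp'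
      linarith
    have hz : p 2 = 0 := by
      nlinarith [sq_nonneg (p 0 - τ u), sq_nonneg (p 1 - τ u ^ 2)]
    rw [hz] at hp
    have hx : p 0 = τ u := by
      have : (p 0 - τ u) ^ 2 ≤ 0 := by nlinarith [sq_nonneg (p 0 - τ u), sq_nonneg (p 1 - τ u ^ 2)]
      nlinarith [sq_nonneg (p 0 - τ u)]
    have hy : p 1 = τ u ^ 2 := by
      have : (p 1 - τ u ^ 2) ^ 2 ≤ 0 := by
        nlinarith [sq_nonneg (p 0 - τ u), sq_nonneg (p 1 - τ u ^ 2)]
      nlinarith [sq_nonneg (p 1 - τ u ^ 2)]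
    by_contra hcon
    obtain ⟨h0, h1⟩ := hτ u
    have := halfspace (-(2 * τ u)) 1 4 (-(τ u ^ 2))
      (closedBall hi 1 ∪ {x | ∃ u, R u v ∧ x = X (τ u)}) (by
        rintro q (hq | ⟨w, hw, rfl⟩)
        · rw [mem_ball_iff _ _ _ zero_le_one] at hq
          simp [hi] at hq
          have a0 : q 0 ≤ 3 / 2 := by
            nlinarith [sq_nonneg (q 0 - 2⁻¹), sq_nonneg (q 1 - 2⁻¹), sq_nonneg (q 2 - 2)]
          have a1 : -(1 / 2) ≤ q 1 := by
            nlinarith [sq_nonneg (q 0 - 2⁻¹), sq_nonneg (q 1 - 2⁻¹), sq_nonneg (q 2 - 2)]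
          have a2 : 1 ≤ q 2 := by
            nlinarith [sq_nonneg (q 0 - 2⁻¹), sq_nonneg (q 1 - 2⁻¹), sq_nonneg (q 2 - 2)]
          nlinarith [mul_nonneg h0 (sub_nonneg.mpr a0), mul_nonneg h0 h0]
        · have hne : τ w ≠ τ u := fun hc => hcon (by rw [← hinj hc]; exact hw)
          have : 0 < (τ w - τ u) ^ 2 := by
            have := sub_ne_zero.mpr hne
            positivity
          simp [X]
          nlinarith) p hp'
    rw [hz, hx, hy] at this
    nlinarith
  · intro h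
    refine ⟨X (τ u), ?_, subset_convexHull ℝ _ (Or.inr ⟨u, h, rfl⟩)⟩
    change X (τ u) ∈ closedBall (cen (τ u)) 1
    rw [mem_ball_iff _ _ _ zero_le_one]
    simp [X, cen]

lemma obj_convex (i : U ⊕ V) : Convex ℝ (obj τ R i) := by
  rcases i with u | v
  · exact convex_closedBall _ _
  · exact convex_convexHull _ _

lemma obj_ball (i : U ⊕ V) : ∃ c, closedBall c 1 ⊆ obj τ R i := by
  rcases i with u | v
  · exact ⟨_, subset_rfl⟩
  · exact ⟨hi, Set.subset_union_left.trans (subset_convexHull ℝ _)⟩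

lemma obj_bdd (hτ : ∀ u, τ u ∈ Set.Icc (0 : ℝ) 1) (i : U ⊕ V) :
    obj τ R i ⊆ closedBall 0 4 := by
  rcases i with u | v
  · obtain ⟨h0, h1⟩ := hτ u
    apply closedBall_subset_closedBall'
    have : dist (cen (τ u)) 0 ≤ 3 := by
      have := (mem_ball_iff 0 (cen (τ u)) 3 (by norm_num)).mpr (by
        simp [cen]
        nlinarith [mul_nonneg h0 h0, mul_nonneg (mul_nonneg h0 h0) (mul_nonneg h0 h0),
          mul_le_one₀ h1 h0 h1, pow_le_one₀ (n := 4) h0 h1, pow_le_one₀ (n := 2) h0 h1])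
      exact this
    linarith
  · apply convexHull_min _ (convex_closedBall _ _)
    rintro q (hq | ⟨w, hw, rfl⟩)
    · have : dist hi 0 ≤ 3 := by
        have := (mem_ball_iff 0 hi 3 (by norm_num)).mpr (by simp [hi]; norm_num)
        exact this
      have h1 : dist q hi ≤ 1 := hq
      have h2 := dist_triangle q hi 0
      rw [mem_closedBall]
      linarith
    · obtain ⟨h0, h1⟩ := hτ w
      rw [mem_ball_iff _ _ _ (by norm_num)]
      simp [X]
      nlinarith [mul_nonneg h0 h0, mul_nonneg (mul_nonneg h0 h0) (mul_nonneg h0 h0),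
          mul_le_one₀ h1 h0 h1, pow_le_one₀ (n := 4) h0 h1, pow_le_one₀ (n := 2) h0 h1]

lemma compact_hull (K F : Set E3) (hK : IsCompact K) (hKc : Convex ℝ K) (hKn : K.Nonempty)
    (hF : F.Finite) : IsCompact (convexHull ℝ (K ∪ F)) := by
  rcases F.eq_empty_or_nonempty with h | h
  · rw [h, Set.union_empty, hKc.convexHull_eq]; exact hK
  · rw [convexHull_union hKn h, hKc.convexHull_eq]
    have hF' := hF.isCompact_convexHull ℝ
    have hcomp : IsCompact ((K ×ˢ (convexHull ℝ F)) ×ˢ (Set.Icc (0 : ℝ) 1)) :=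
      (hK.prod hF').prod isCompact_Icc
    have himg := hcomp.image (f := fun z : (E3 × E3) × ℝ => (1 - z.2) • z.1.1 + z.2 • z.1.2)
      (by fun_prop)
    convert himg using 1
    ext x
    simp only [mem_convexJoin, Set.mem_image, Set.mem_prod, segment_eq_image]
    constructor
    · rintro ⟨a, ha, b, hb, t, ht, rfl⟩
      exact ⟨((a, b), t), ⟨⟨ha, hb⟩, ht⟩, rfl⟩
    · rintro ⟨⟨⟨a, b⟩, t⟩, ⟨⟨ha, hb⟩, ht⟩, rfl⟩
      exact ⟨a, ha, b, hb, t, ht, rfl⟩

lemma obj_compact [Finite U] (i : U ⊕ V) : IsCompact (obj τ R i) := by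
  rcases i with u | v
  · exact isCompact_closedBall _ _
  · apply compact_hull _ _ (isCompact_closedBall _ _) (convex_closedBall _ _)
    · exact ⟨hi, mem_closedBall_self zero_le_one⟩
    · exact (Set.finite_range (fun u => X (τ u))).subset (by rintro _ ⟨u, -, rfl⟩; exact ⟨u, rfl⟩)

end

/-! ### Points and lines -/

/-- incidences of points `(a, b)` and lines `y = m x + c` over `F_p`, with `k` isolated extra
elements -/
def Inc (p k : ℕ) : (ZMod p × ZMod p) ⊕ Fin k → ZMod p × ZMod p → Prop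
  | Sum.inl (a, b), (m, c) => b = m * a + c
  | Sum.inr _, _ => False

lemma inc_free (p k : ℕ) [Fact p.Prime] (u u' : (ZMod p × ZMod p) ⊕ Fin k)
    (v v' : ZMod p × ZMod p) (hu : u ≠ u') (h1 : Inc p k u v) (h2 : Inc p k u' v)
    (h3 : Inc p k u v') (h4 : Inc p k u' v') : v = v' := by
  rcases u with ⟨a, b⟩ | _
  swap
  · exact h1.elim
  rcases u' with ⟨a', b'⟩ | _
  swap
  · exact h2.elim
  obtain ⟨m, c⟩ := v
  obtain ⟨m', c'⟩ := v'
  simp only [Inc] at h1 h2 h3 h4
  have key : (m - m') * (a - a') = 0 := by linear_combination h3 - h1 + h2 - h4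
  rcases mul_eq_zero.mp key with h | h
  · have hm : m = m' := sub_eq_zero.mp h
    subst hm
    have : c = c' := by linear_combination h3 - h1
    rw [this]
  · exfalso
    apply hu
    have ha : a = a' := sub_eq_zero.mp h
    subst ha
    have : b = b' := by rw [h1, h2]
    rw [this]

lemma inc_card (p k : ℕ) [Fact p.Prime] :
    p ^ 3 ≤ Nat.card {x : ((ZMod p × ZMod p) ⊕ Fin k) × (ZMod p × ZMod p) // Inc p k x.1 x.2} := by
  let f : ZMod p × ZMod p × ZMod p →
      {x : ((ZMod p × ZMod p) ⊕ Fin k) × (ZMod p × ZMod p) // Inc p k x.1 x.2} :=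
    fun z => ⟨(Sum.inl (z.1, z.2.1 * z.1 + z.2.2), (z.2.1, z.2.2)), rfl⟩
  have hf : Function.Injective f := by
    rintro ⟨a, m, c⟩ ⟨a', m', c'⟩ h
    have h0 := congrArg Subtype.val h
    have h1 := congrArg (fun z : ((ZMod p × ZMod p) ⊕ Fin k) × (ZMod p × ZMod p) =>
      z.2) h0
    have h2 := congrArg (fun z : ((ZMod p × ZMod p) ⊕ Fin k) × (ZMod p × ZMod p) =>
      z.1) h0
    simp only [f, Sum.inl.injEq, Prod.mk.injEq] at h1 h2
    rw [h1.1, h1.2, h2.1]
  have := Nat.card_le_card_of_injective f hf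
  rw [Nat.card_prod, Nat.card_prod, Nat.card_zmod] at this
  calc p ^ 3 = p * (p * p) := by ring
    _ ≤ _ := this

lemma exists_tau (U : Type) [Finite U] :
    ∃ τ : U → ℝ, Function.Injective τ ∧ ∀ u, τ u ∈ Set.Icc (0 : ℝ) 1 := by
  obtain ⟨n, ⟨e⟩⟩ := Finite.exists_equiv_fin U
  refine ⟨fun u => (e u : ℕ) / (n : ℝ), ?_, ?_⟩
  · intro u v h
    have hn : (n : ℝ) ≠ 0 := by
      have := (e u).pos
      positivity
    simp only at h
    have h1 : ((e u : ℕ) : ℝ) = (e v : ℕ) := by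
      field_simp at h
      exact h
    exact e.injective (Fin.ext (by exact_mod_cast h1))
  · intro u
    have hn : (0 : ℝ) < n := by
      have := (e u).pos
      positivity
    constructor
    · positivity
    · rw [div_le_one hn]
      exact_mod_cast (e u).2.le

/-- the family for a prime `p` with `2 p² ≤ n` -/
lemma family (p n : ℕ) [Fact p.Prime] (hn : 2 * p ^ 2 ≤ n) :
    ∃ A : Fin n → Set E3, (∀ i, Convex ℝ (A i) ∧ IsCompact (A i) ∧
      (∃ c, closedBall c 1 ⊆ A i) ∧ A i ⊆ closedBall 0 4) ∧ IsFat 2 A ∧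
      ∀ G' : SimpleGraph (Fin n), IsSpanner 2 (interGraph A) G' →
        p ^ 3 ≤ 2 * G'.edgeSet.ncard := by
  classical
  obtain ⟨k, hk⟩ := Nat.exists_eq_add_of_le hn
  let U : Type := (ZMod p × ZMod p) ⊕ Fin k
  let V : Type := ZMod p × ZMod p
  have hcard : Fintype.card (U ⊕ V) = n := by
    simp only [U, V, Fintype.card_sum, Fintype.card_prod, ZMod.card, Fintype.card_fin]
    rw [hk]; ring
  let e : Fin n ≃ U ⊕ V := (Fintype.equivFinOfCardEq hcard).symm
  obtain ⟨τ, hinj, hτ⟩ := exists_tau U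
  let R : U → V → Prop := Inc p k
  refine ⟨fun i => obj τ R (e i), ?_, ?_, ?_⟩
  · intro i
    exact ⟨obj_convex τ R _, obj_compact τ R _, obj_ball τ R _, obj_bdd τ R hτ _⟩
  · intro a ℓ _
    refine ⟨{lo, hi}, Finset.card_le_two, ?_⟩
    intro i _ _
    rcases h : e i with u | v
    · exact ⟨lo, by simp, by simpa [h] using lo_mem τ R hτ u⟩
    · exact ⟨hi, by simp, by simpa [h] using hi_mem τ R v⟩
  · intro G' hG'
    refine (inc_card p k).trans (count e R (fun u u' v v' h1 h2 h3 h4 h5 =>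
      inc_free p k u u' v v' h1 h2 h3 h4 h5) _ G' ?_ hG')
    intro u v
    have := inter_iff τ R hτ hinj u v
    simp only [interGraph, Equiv.apply_symm_apply]
    rw [this]
    constructor
    · exact fun h => h.2
    · intro h
      refine ⟨fun hc => ?_, h⟩
      have := e.symm.injective hc
      simp at this

lemma main (n : ℕ) (hn : 8 ≤ n) :
    ∃ A : Fin n → Set E3, (∀ i, Convex ℝ (A i) ∧ IsCompact (A i) ∧
      (∃ c, closedBall c 1 ⊆ A i) ∧ A i ⊆ closedBall 0 4) ∧ IsFat 2 A ∧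
      ∀ G' : SimpleGraph (Fin n), IsSpanner 2 (interGraph A) G' →
        (n : ℝ) ^ (3 / 2 : ℝ) / 46 ≤ G'.edgeSet.ncard := by
  set s := Nat.sqrt (n / 8) with hs
  have hs0 : s ≠ 0 := by
    rw [hs]
    have : 0 < n / 8 := by omega
    exact (Nat.sqrt_pos.mpr this).ne'
  obtain ⟨p, hp, hsp, hps⟩ := Nat.exists_prime_lt_and_le_two_mul s hs0
  have : Fact p.Prime := ⟨hp⟩
  have h1 : s * s ≤ n / 8 := Nat.sqrt_le (n / 8)
  have h2 : n / 8 < (s + 1) * (s + 1) := Nat.lt_succ_sqrt _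
  have h3 : 2 * p ^ 2 ≤ n := by
    have : p ^ 2 ≤ (2 * s) ^ 2 := Nat.pow_le_pow_left hps 2
    have h8 : 8 * (n / 8) ≤ n := Nat.mul_div_le n 8
    nlinarith
  have h4 : n ≤ 8 * p ^ 2 := by
    have : (s + 1) * (s + 1) ≤ p ^ 2 := by
      rw [pow_two]
      exact Nat.mul_le_mul hsp hsp
    omega
  obtain ⟨A, hA, hfat, hsp⟩ := family p n h3
  refine ⟨A, hA, hfat, fun G' hG' => ?_⟩
  have h5 := hsp G' hG'
  have h5' : (p : ℝ) ^ 3 ≤ 2 * (G'.edgeSet.ncard : ℝ) := by exact_mod_cast h5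
  have h4' : (n : ℝ) ≤ 8 * (p : ℝ) ^ 2 := by exact_mod_cast h4
  have hn0 : (0 : ℝ) ≤ n := Nat.cast_nonneg n
  have hp0 : (0 : ℝ) ≤ p := Nat.cast_nonneg p
  have h6 : (n : ℝ) ^ (3 / 2 : ℝ) ≤ 23 * (p : ℝ) ^ 3 := by
    apply le_of_sq_le_sq _ (by positivity)
    have e1 : ((n : ℝ) ^ (3 / 2 : ℝ)) ^ 2 = (n : ℝ) ^ 3 := by
      rw [← Real.rpow_natCast, ← Real.rpow_mul hn0, ← Real.rpow_natCast (n : ℝ) 3]
      norm_num
    rw [e1]
    calc (n : ℝ) ^ 3 ≤ (8 * (p : ℝ) ^ 2) ^ 3 := pow_le_pow_left₀ hn0 h4' 3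
      _ = 512 * (p : ℝ) ^ 6 := by ring
      _ ≤ 529 * (p : ℝ) ^ 6 := by
          have : 0 ≤ (p : ℝ) ^ 6 := by positivity
          linarith
      _ = (23 * (p : ℝ) ^ 3) ^ 2 := by ring
  linarith

/-- For every `n ≥ 8` there is a 2-fat family of `n` compact convex objects in 3-space, each
containing a unit ball and contained in the ball of radius 4, all of whose 2-spanners have at least
`n^{3/2} / 46` edges.  In particular no saving `n^{3/2 - δ}` is possible. -/
theorem result :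
    (∀ n : ℕ, 8 ≤ n → ∃ A : Fin n → Set E3,
      (∀ i, Convex ℝ (A i) ∧ IsCompact (A i) ∧ (∃ c, closedBall c 1 ⊆ A i) ∧
        A i ⊆ closedBall 0 4) ∧ IsFat 2 A ∧
      ∀ G' : SimpleGraph (Fin n), IsSpanner 2 (interGraph A) G' →
        (n : ℝ) ^ (3 / 2 : ℝ) / 46 ≤ G'.edgeSet.ncard) ∧
    (∀ δ : ℝ, 0 < δ → ∃ c : ℕ, ∀ K : ℝ, ∃ (n : ℕ) (A : Fin n → Set E3),
      (∀ i, (A i).Nonempty ∧ Bornology.IsBounded (A i)) ∧ IsFat c A ∧
      ∀ G' : SimpleGraph (Fin n), IsSpanner 2 (interGraph A) G' →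
        K * (n : ℝ) ^ (3 / 2 - δ : ℝ) < G'.edgeSet.ncard) := by
  refine ⟨main, fun δ hδ => ⟨2, fun K => ?_⟩⟩
  have ht := (tendsto_rpow_atTop hδ).comp (tendsto_natCast_atTop_atTop (R := ℝ))
  obtain ⟨n, hn8, hn⟩ := ((Filter.eventually_ge_atTop 8).and
    (ht.eventually_gt_atTop (46 * K))).exists
  obtain ⟨A, hA, hfat, hsp⟩ := main n hn8
  refine ⟨n, A, fun i => ?_, hfat, fun G' hG' => ?_⟩
  · obtain ⟨-, hc, ⟨c, hb⟩, -⟩ := hA i
    exact ⟨⟨c, hb (mem_closedBall_self zero_le_one)⟩, hc.isBounded⟩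
  · refine lt_of_lt_of_le ?_ (hsp G' hG')
    have hn0 : (0 : ℝ) < n := by
      have : 0 < n := by omega
      exact_mod_cast this
    have e : (n : ℝ) ^ (3 / 2 : ℝ) = (n : ℝ) ^ (3 / 2 - δ : ℝ) * (n : ℝ) ^ δ := by
      rw [← Real.rpow_add hn0]; congr 1; ring
    rw [e]
    have hpos : 0 < (n : ℝ) ^ (3 / 2 - δ : ℝ) := Real.rpow_pos_of_pos hn0 _
    simp only [Function.comp_apply] at hn
    have := mul_lt_mul_of_pos_left hn hpos
    linarith

end Pool.Agent.Results.MP_47a88a_co.FatNoSaving
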